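import Pool.Agent.H849.CC.Defs

/-!
# The motives cut out by idempotents of a group algebra: definitions
-/

set_option autoImplicit false

open Module

universe u v

namespace Pool.Agent.H849.EF

open Pool.Agent.Y143 Pool.Agent.H849.CC

section general

variable {Ω : Type u} [Field Ω] {V : Type v} [AddCommGroup V] [Module Ω V]

open Classical in
/-- The characteristic polynomial of the restriction of `F` to the stable finite-dimensional subspace
`S`. -/
noncomputable def charpolyOn (F : Module.End Ω V) (S : Submodule Ω V) : Polynomial Ω :=
  if h : (∀ x ∈ S, F x ∈ S) ∧ Module.Finite Ω S then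
    haveI := h.2
    (F.restrict h.1).charpoly
  else 0

variable [CharZero Ω] {G : Type} [Group G] [Fintype G]

/-- The operator given by the element `∑ e(g) g` of the group algebra. -/
noncomputable def groupElement (e : G → ℚ) (ρ : G →* Module.End Ω V) : Module.End Ω V :=
  ∑ g, (e g : Ω) • ρ g

/-- The image of the element `∑ e(g) g` of the group algebra. -/
noncomputable def image (e : G → ℚ) (ρ : G →* Module.End Ω V) : Submodule Ω V :=
  LinearMap.range (groupElement e ρ)

end general

/-- The element `∑ e(g) g` of `ℚ[G]` is idempotent. -/
def IsIdempotent {G : Type} [Group G] [Fintype G] (e : G → ℚ) : Prop :=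
  ∀ g, ∑ h, e h * e (h⁻¹ * g) = e g

variable {Ω : Type u} [Field Ω] [CharZero Ω] {Γ : Type} {Y : StrataData.{u, v} Ω Γ}
  {E : GenericData Y} {G : Type} [Group G] [Fintype G]

/-- The automorphisms commute with the Frobenius on the cohomology of the strata, and
`N F = q F N` on the cohomology of the geometric generic fibre. -/
def IsFrobeniusCompatible (A : GroupAction E G) (q : ℕ) : Prop :=
  (∀ g a, Commutes (Y.act a Y.frob) (A.opH g a) (A.opH g a)) ∧
    ∀ i v, E.N i (E.act i Y.frob v) = (q : Ω) • E.act i Y.frob (E.N i v)

/-- The characteristic polynomial of the geometric Frobenius on the inertia invariants (the kernel of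
the monodromy operator) of the realisation `e H^i` of the motive cut out by `e`. The local Euler
polynomial `det (1 - T F)` is its reciprocal polynomial. -/
noncomputable def eulerPoly (A : GroupAction E G) (e : G → ℚ) (i : ℕ) : Polynomial Ω :=
  charpolyOn (E.act i Y.frob) (image e (A.onV i) ⊓ LinearMap.ker (E.N i))

/-- The characteristic polynomial of the geometric Frobenius on `e H^m(Y^(a+1))`. -/
noncomputable def strataPoly (A : GroupAction E G) (e : G → ℚ) (a : ℕ) (m : ℤ) : Polynomial Ω :=
  charpolyOn (Y.act a Y.frob) (image e (A.onH a) ⊓ Y.gr a m)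

/-- The idempotent of `ℚ[G]` which is the mean value of the elements of the group; it cuts out the
motive of the quotient. -/
noncomputable def meanValue (G : Type) [Fintype G] : G → ℚ := fun _ => (Fintype.card G : ℚ)⁻¹

/-- The polynomials `P l` have rational coefficients and do not depend on `l`. -/
def IsRational {Λ : Type} {K : Λ → Type u} [∀ l, Field (K l)] [∀ l, CharZero (K l)]
    (P : ∀ l, Polynomial (K l)) : Prop :=
  ∃ R : Polynomial ℚ, ∀ l, P l = R.map (algebraMap ℚ (K l))

end Pool.Agent.H849.EF
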