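import Pool.Agent.H849.EF.Part
import Pool.Agent.H849.SEC.Gen

/-!
# The factorization of the Euler polynomial
-/

set_option autoImplicit false

open Module

universe u v

namespace Pool.Agent.H849.EF

open Pool.Agent.Y143 Pool.Agent.H849.CC

variable {Ω : Type u} [Field Ω] [CharZero Ω] {Γ : Type} {n q : ℕ}
  {X : SemistableModel.{u, v} Ω Γ n q} {G : Type} [Group G] [Fintype G]
  {A : GroupAction X.generic G} {e : G → ℚ}

/-- The part of weight at most `w` of the kernel of `N` on the realisation. -/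
noncomputable def kerW (A : GroupAction X.generic G) (e : G → ℚ) (w : ℤ) : Submodule Ω (X.V n) :=
  (image e (A.onV n) ⊓ LinearMap.ker (X.N n)) ⊓ X.W n w

/-- The identification of the graded piece of weight `w` with a part of the cohomology of one
stratum. -/
noncomputable def graphW (X : SemistableModel.{u, v} Ω Γ n q) (w : ℤ) (a : ℕ) :
    Submodule Ω (X.V n × X.H a) :=
  (X.sp n w).comap (LinearMap.prodMap LinearMap.id (LinearMap.single Ω X.H a))

lemma mem_graphW {w : ℤ} {a : ℕ} {v : X.V n} {x : X.H a} :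
    (v, x) ∈ graphW X w a ↔ (v, (Pi.single a x : X.C)) ∈ X.sp n w := Iff.rfl

theorem E_apply (x : X.C) (a : ℕ) :
    groupElement e A.onC x a = groupElement e (A.onH a) (x a) := by
  rw [groupElement_apply, groupElement_apply, Finset.sum_apply]
  rfl

theorem E_single (a : ℕ) (x : X.H a) :
    groupElement e A.onC (Pi.single a x : X.C) = Pi.single a (groupElement e (A.onH a) x) := by
  funext b
  rw [E_apply]
  by_cases hb : b = a
  · subst hb
    rw [Pi.single_eq_same, Pi.single_eq_same]
  · rw [Pi.single_eq_of_ne hb, Pi.single_eq_of_ne hb, map_zero]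

theorem E_cut (r : ℤ) (x : X.C) :
    groupElement e A.onC (X.cut r x) = X.cut r (groupElement e A.onC x) := by
  funext a
  rw [E_apply]
  by_cases hc : InColumn r a
  · rw [X.cut_of hc, X.cut_of hc, E_apply]
  · rw [X.cut_of_not hc, X.cut_of_not hc, map_zero]

theorem act_single (a : ℕ) (g : Γ) (x : X.H a) :
    X.actC a g (Pi.single a x : X.C) = Pi.single a (X.act a g x) := by
  funext b
  show ((X.cyc g ^ (((b : ℤ) - a) / 2) : Ωˣ) : Ω) • X.act b g ((Pi.single a x : X.C) b) = _
  by_cases hb : b = a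
  · subst hb
    rw [Pi.single_eq_same, Pi.single_eq_same, sub_self, Int.zero_ediv, zpow_zero, Units.val_one,
      one_smul]
  · rw [Pi.single_eq_of_ne hb, Pi.single_eq_of_ne hb, map_zero, smul_zero]

theorem W_F {i : ℕ} {w : ℤ} {v : X.V i} (g : Γ) (hv : v ∈ X.W i w) : X.actV i g v ∈ X.W i w := by
  obtain ⟨x, hx⟩ := X.sp_left i w v hv
  exact (X.sp_mem i _ _ _ (X.sp_act i w v x g hx)).1

section
variable (hA : A.IsAction) (h : A.TrivialBelowMiddle n) (h0 : ∑ g, e g = 0) (he : IsIdempotent e)
include hA h h0 he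

/-- Representatives of the vectors killed by `N`. -/
theorem ker_rep {w : ℤ} {v : X.V n} (hv : v ∈ image e (A.onV n)) (hN : X.N n v = 0)
    (hw : v ∈ X.W n w) : ∃ x, (v, x) ∈ X.sp n w ∧ groupElement e A.onC x = x ∧
      ∀ a : ℕ, (a : ℤ) ≠ n - w → x a = 0 := by
  obtain ⟨x, hx, hxE⟩ := exists_rep hA h h0 he hv hw
  refine ⟨x, hx, hxE, fun a ha => ?_⟩
  have h1 := (X.sp_mem n _ _ _ hx).2.1
  have h2 := X.sp_N n _ _ _ hx
  rw [hN] at h2
  have h3 := (X.sp_ker n _ _ _ h2).1 (Submodule.zero_mem _)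
  have h4 : X.cut ((n : ℤ) - w + 2) x = 0 := by
    apply bd_zero hA h h0 he (by ring) h3
    rw [E_cut, hxE]
  by_cases hc : InColumn ((n : ℤ) - w) a
  · have hc' : InColumn ((n : ℤ) - w + 2) a := by
      obtain ⟨h5, h6⟩ := hc
      have h7 : (n : ℤ) - w ≤ a := (le_abs_self _).trans h5
      have h8 : -((n : ℤ) - w) ≤ a := (neg_le_abs _).trans h5
      refine ⟨?_, by omega⟩
      rw [abs_le]
      constructor
      · omega
      · obtain ⟨k, hk⟩ := h6
        omega
    have h5 := congrFun h4 a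
    rwa [X.cut_of hc'] at h5
  · exact (h1 a).2 hc

/-- The vectors killed by `N` have weight at most `n`. -/
theorem ker_le {w : ℤ} (hw : (n : ℤ) ≤ w) : kerW A e w ≤ kerW A e n := by
  have key : ∀ k : ℕ, kerW A e (n + k) ≤ kerW A e n := by
    intro k
    induction k with
    | zero => rw [Nat.cast_zero, add_zero]
    | succ k ih =>
      refine le_trans ?_ ih
      rintro v ⟨⟨hvE, hvN⟩, hvW⟩
      refine ⟨⟨hvE, hvN⟩, ?_⟩
      obtain ⟨x, hx, -, hx0⟩ := ker_rep hA h h0 he hvE hvN hvW
      have h1 : x = 0 := by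
        funext a
        exact hx0 a (by push_cast; omega)
      have h2 := (X.sp_ker n _ _ _ hx).2 (by rw [h1]; exact Submodule.zero_mem _)
      exact X.W_cast (by push_cast; ring) h2
  have := key (w - n).toNat
  rwa [show (n : ℤ) + ((w - n).toNat : ℤ) = w by
    rw [Int.toNat_of_nonneg (by omega)]; ring] at this

/-- There are no vectors of negative weight. -/
theorem ker_neg : kerW A e (-1) = ⊥ := by
  obtain ⟨b, hb⟩ := X.W_bot n
  have key : ∀ k : ℕ, kerW A e (-1) ≤ kerW A e (-1 - k) := by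
    intro k
    induction k with
    | zero => rw [Nat.cast_zero, sub_zero]
    | succ k ih =>
      refine le_trans ih ?_
      rintro v ⟨⟨hvE, hvN⟩, hvW⟩
      refine ⟨⟨hvE, hvN⟩, ?_⟩
      obtain ⟨x, hx, -, hx0⟩ := ker_rep hA h h0 he hvE hvN hvW
      have h1 : x = 0 := by
        funext a
        by_cases ha : (a : ℤ) = n - (-1 - k)
        · have h2 := ((X.sp_mem n _ _ _ hx).2.1 a).1
          rw [X.gr_eq_bot a _ (Or.inl (by omega)), Submodule.mem_bot] at h2
          exact h2
        · exact hx0 a ha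
      have h2 := (X.sp_ker n _ _ _ hx).2 (by rw [h1]; exact Submodule.zero_mem _)
      exact X.W_cast (by push_cast; ring) h2
  rw [eq_bot_iff]
  intro v hv
  have h1 := (key ((-1 - b).toNat) hv).2
  have h2 := X.W_mono n (show -1 - (((-1 - b).toNat : ℕ) : ℤ) ≤ b by
    have := Int.self_le_toNat (-1 - b)
    omega) h1
  rw [hb] at h2
  exact h2

variable (hN : IsFrobeniusCompatible A q)
include hN

theorem kerW_stable (w : ℤ) (v : X.V n) (hv : v ∈ kerW A e w) :
    X.actV n X.frob v ∈ kerW A e w := by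
  obtain ⟨⟨hvE, hvN⟩, hvW⟩ := hv
  refine ⟨⟨?_, ?_⟩, W_F _ hvW⟩
  · rw [SetLike.mem_coe, mem_image_iff he] at hvE ⊢
    rw [← groupElement_comm fun g v => hA.frob g n v, hvE]
  · rw [SetLike.mem_coe, LinearMap.mem_ker] at hvN ⊢
    have h1 : X.N n (X.actV n X.frob v) = (q : Ω) • X.actV n X.frob (X.N n v) := hN.2 n v
    rw [h1, hvN, map_zero, smul_zero]

/-- The contribution of one weight. -/
theorem kerW_step {w a : ℕ} (haw : a + w = n) :
    charpolyOn (X.actV n X.frob) (kerW A e w) =
      charpolyOn (X.actV n X.frob) (kerW A e (w - 1)) * strataPoly A e a (n - a) := by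
  have hfin := Pool.Agent.R942.WB.finite_V X n
  have hwn : (n : ℤ) - w = a := by omega
  have hna : (n : ℤ) - a = w := by omega
  have hinf : Infinite Ω := inferInstance
  rw [hna]
  have hE1 : ∀ x : X.H a, x ∈ X.gr a w → (Pi.single a x : X.C) ∈ X.E₁ (n - w) w := by
    intro x hx b
    by_cases hb : b = a
    · subst hb
      rw [Pi.single_eq_same]
      refine ⟨by rwa [show (w : ℤ) + (n - w) - b = w by omega], fun hc => absurd ?_ hc⟩
      rw [hwn]
      exact ⟨by rw [abs_of_nonneg (Int.natCast_nonneg b)], by rw [sub_self]; exact dvd_zero _⟩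
    · rw [Pi.single_eq_of_ne hb]
      exact ⟨Submodule.zero_mem _, fun _ => rfl⟩
  refine charpolyOn_graph (T := graphW X w a) (kerW_stable hA h h0 he hN w) ?_ ?_ ?_ ?_ ?_ ?_
  · rintro x ⟨hxE, hx⟩
    refine ⟨?_, X.act_gr _ _ _ _ hx⟩
    have h1 := (mem_image_iff he).1 hxE
    rw [SetLike.mem_coe, mem_image_iff he]
    have h2 : ∀ (g : G) (y : X.H a), X.act a X.frob (A.onH a g y) = A.onH a g (X.act a X.frob y) :=
      fun g y => hN.1 g a y
    rw [← groupElement_comm h2, h1]
  · exact inf_le_inf_left _ (X.W_mono n (by omega))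
  · rintro v ⟨⟨hvE, hvN⟩, hvW⟩
    obtain ⟨x, hx, hxE, hx0⟩ := ker_rep hA h h0 he hvE hvN hvW
    have h1 : x = Pi.single a (x a) := by
      funext b
      by_cases hb : b = a
      · subst hb
        rw [Pi.single_eq_same]
      · rw [Pi.single_eq_of_ne hb]
        exact hx0 b (by omega)
    have h2 := ((X.sp_mem n _ _ _ hx).2.1 a).1
    refine ⟨x a, ⟨?_, by rwa [show (w : ℤ) + (n - w) - a = w by omega] at h2⟩, ?_⟩
    · rw [SetLike.mem_coe, mem_image_iff he, ← E_apply, hxE]
    · rw [mem_graphW, ← h1]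
      exact hx
  · rintro x ⟨hxE, hx⟩
    have hxE' : groupElement e A.onC (Pi.single a x : X.C) = Pi.single a x := by
      rw [E_single, (mem_image_iff he).1 hxE]
    obtain ⟨v, hvE, hv⟩ := exists_vec hA h h0 he (hE1 x hx) hxE'
    have hNE : ∀ v : X.V n, X.N n (groupElement e (A.onV n) v) =
        groupElement e (A.onV n) (X.N n v) :=
      groupElement_comm fun g v => hA.monodromy g n v
    have h1 := X.sp_N n _ _ _ hv
    have h2 : X.cut ((n : ℤ) - w + 2) (Pi.single a x : X.C) = 0 := by
      funext b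
      by_cases hc : InColumn ((n : ℤ) - w + 2) b
      · rw [X.cut_of hc]
        by_cases hb : b = a
        · exfalso
          subst hb
          have h3 := (le_abs_self _).trans hc.1
          omega
        · rw [Pi.single_eq_of_ne hb]
          rfl
      · rw [X.cut_of_not hc]
        rfl
    rw [h2] at h1
    have h3 := (X.sp_ker n _ _ _ h1).2 (Submodule.zero_mem _)
    have h4 : X.N n v ∈ image e (A.onV n) := by
      rw [mem_image_iff he] at hvE ⊢
      rw [← hNE, hvE]
    obtain ⟨u, huE, hu, huN⟩ := N_surj hA h h0 he (w := (w : ℤ) - 2 - 1) (by omega) h3 h4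
    have hvW := (X.sp_mem n _ _ _ hv).1
    have hsub : v - u ∈ X.W n w := Submodule.sub_mem _ hvW (X.W_mono n (by omega) hu)
    have hsubE : v - u ∈ image e (A.onV n) := Submodule.sub_mem _ hvE huE
    refine ⟨v - u, ⟨⟨hsubE, ?_⟩, hsub⟩, ?_⟩
    · rw [SetLike.mem_coe, LinearMap.mem_ker, map_sub, huN, sub_self]
    · obtain ⟨x', hx', hx'E⟩ := exists_rep hA h h0 he hsubE hsub
      have h5 : (u, (Pi.single a x : X.C) - x') ∈ X.sp n w := by
        have := Submodule.sub_mem _ hv hx'
        rwa [Prod.mk_sub_mk, sub_sub_cancel] at this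
      have h6 := (X.sp_ker n _ _ _ h5).1 (X.W_mono n (by omega) hu)
      have h7 := bd_zero hA h h0 he (by ring) h6 (by rw [map_sub, hxE', hx'E])
      rw [mem_graphW, sub_eq_zero.1 h7]
      exact hx'
  · rintro v ⟨hv, hvW⟩ x ⟨hxE, hx⟩ hvx
    rw [mem_graphW] at hvx
    constructor
    · intro hv'
      have h1 := (X.sp_ker n _ _ _ hvx).1 hv'.2
      have h2 := bd_zero hA h h0 he (by ring) h1 (by rw [E_single, (mem_image_iff he).1 hxE])
      have h3 := congrFun h2 a
      rwa [Pi.single_eq_same] at h3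
    · intro hx0
      refine ⟨hv, ?_⟩
      rw [hx0, Pi.single_zero] at hvx
      exact (X.sp_ker n _ _ _ hvx).2 (Submodule.zero_mem _)
  · intro v x hvx
    rw [mem_graphW] at hvx ⊢
    have h1 := X.sp_act n _ _ _ X.frob hvx
    rwa [hwn, act_single] at h1

/-- The factorization of the Euler polynomial. -/
theorem eulerPoly_eq : eulerPoly A e n = ∏ a ∈ Finset.range (n + 1), strataPoly A e a (n - a) := by
  have key : ∀ w : ℕ, w ≤ n → charpolyOn (X.actV n X.frob) (kerW A e w) =
      ∏ k ∈ Finset.range (w + 1), strataPoly A e (n - k) ((n : ℤ) - ((n - k : ℕ) : ℤ)) := by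
    intro w
    induction w with
    | zero =>
      intro _
      rw [Finset.prod_range_one, kerW_step hA h h0 he hN (a := n - 0) (by omega)]
      rw [show (((0 : ℕ) : ℤ)) - 1 = -1 by norm_num, ker_neg hA h h0 he, charpolyOn_bot, one_mul]
    | succ w ih =>
      intro hw
      rw [Finset.prod_range_succ, ← ih (by omega),
        kerW_step hA h h0 he hN (a := n - (w + 1)) (by omega)]
      rw [show (((w + 1 : ℕ) : ℤ)) - 1 = w by push_cast; ring]
  have htop : kerW A e n = image e (A.onV n) ⊓ LinearMap.ker (X.N n) := by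
    apply le_antisymm
    · exact inf_le_left
    · obtain ⟨t, ht⟩ := X.W_top n
      refine le_trans ?_ (ker_le hA h h0 he (w := max t n) (le_max_right _ _))
      intro v hv
      refine ⟨hv, X.W_mono n (le_max_left _ _) ?_⟩
      rw [ht]
      trivial
  have h1 := key n le_rfl
  rw [htop] at h1
  show charpolyOn (X.actV n X.frob) (image e (A.onV n) ⊓ LinearMap.ker (X.N n)) = _
  rw [h1, ← Finset.prod_range_reflect]
  refine Finset.prod_congr rfl fun k hk => ?_
  rw [Finset.mem_range] at hk
  rw [show n + 1 - 1 - k = n - k by omega]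
  congr 2 <;> omega

end

end Pool.Agent.H849.EF
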