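import Pool.Agent.H849.EF.Main

/-!
# The Euler polynomials of the motives cut out by idempotents: final statements
-/

set_option autoImplicit false

open Module

universe u v

namespace Pool.Agent.H849.EF

open Pool.Agent.Y143 Pool.Agent.H849.CC Polynomial

section one

variable {Ω : Type u} [Field Ω] [CharZero Ω] {Γ : Type} {n q : ℕ}
  {X : SemistableModel.{u, v} Ω Γ n q} {G : Type} [Group G] [Fintype G]
  {A : GroupAction X.generic G} {e : G → ℚ}

theorem eulerPoly_monic (hA : A.IsAction) (hN : IsFrobeniusCompatible A q) (he : IsIdempotent e)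
    (i : ℕ) : (eulerPoly A e i).Monic := by
  have hfin := Pool.Agent.R942.WB.finite_V X i
  have hF : ∀ (g : G) (v : X.V i), X.actV i X.frob (A.onV i g v) = A.onV i g (X.actV i X.frob v) :=
    fun g v => hA.frob g i v
  refine charpolyOn_monic (F := X.actV i X.frob) (S := image e (A.onV i) ⊓ LinearMap.ker (X.N i)) ?_
  rintro v ⟨hv, hv0⟩
  refine ⟨?_, ?_⟩
  · rw [SetLike.mem_coe, mem_image_iff he] at hv ⊢
    rw [← groupElement_comm hF, hv]
  · rw [SetLike.mem_coe, LinearMap.mem_ker] at hv0 ⊢
    have h2 : X.N i (X.actV i X.frob v) = (q : Ω) • X.actV i X.frob (X.N i v) := hN.2 i v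
    rw [h2, hv0, map_zero, smul_zero]

end one

section many

variable {Λ : Type} {K : Λ → Type u} [∀ l, Field (K l)] [∀ l, CharZero (K l)] {Γ : Type} {n q : ℕ}
  {X : ∀ l, SemistableModel.{u, v} (K l) Γ n q} {G : Type} [Group G] [Fintype G]
  {A : ∀ l, GroupAction (X l).generic G} {e : G → ℚ}

theorem rational_new (hA : ∀ l, (A l).IsAction) (hN : ∀ l, IsFrobeniusCompatible (A l) q)
    (h : ∀ l, (A l).TrivialBelowMiddle n)
    (hQ : ∀ e : G → ℚ, IsIdempotent e → ∀ a : ℕ, a ≤ n →
      IsRational fun l => strataPoly (A l) e a (n - a))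
    (he : IsIdempotent e) (h0 : ∑ g, e g = 0) (i : ℕ) :
    IsRational fun l => eulerPoly (A l) e i := by
  by_cases hi : i = n
  · subst hi
    have h1 : (fun l => eulerPoly (A l) e i) = fun l =>
        ∏ a ∈ Finset.range (i + 1), strataPoly (A l) e a (i - a) :=
      funext fun l => eulerPoly_eq (hA l) (h l) h0 he (hN l)
    rw [h1]
    exact IsRational.prod (P := fun a l => strataPoly (A l) e a (i - a)) fun a ha =>
      hQ e he a (by rw [Finset.mem_range] at ha; omega)
  · have h1 : (fun l => eulerPoly (A l) e i) = fun l => (1 : Polynomial (K l)) :=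
      funext fun l => eulerPoly_outside (hA l) (h l) h0 he hi
    rw [h1]
    exact IsRational.one

theorem rational_iff (hA : ∀ l, (A l).IsAction) (hN : ∀ l, IsFrobeniusCompatible (A l) q)
    (h : ∀ l, (A l).TrivialBelowMiddle n)
    (hQ : ∀ e : G → ℚ, IsIdempotent e → ∀ a : ℕ, a ≤ n →
      IsRational fun l => strataPoly (A l) e a (n - a))
    (he : IsIdempotent e) (h0 : ∑ g, e g ≠ 0) (i : ℕ) :
    (IsRational fun l => eulerPoly (A l) e i) ↔
      IsRational fun l => eulerPoly (A l) (meanValue G) i := by
  have h1 : ∑ g, e g = 1 := by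
    have := sum_idem he
    exact mul_right_cancel₀ h0 (by rw [this, one_mul])
  have h2 : (fun l => eulerPoly (A l) e i) = fun l =>
      eulerPoly (A l) (meanValue G) i * eulerPoly (A l) (fun g => e g - meanValue G g) i :=
    funext fun l => eulerPoly_split (hA l) (hN l) h1 he i
  have h3 := rational_new hA hN h hQ (idem_sub he h1) (sum_sub h1) i
  rw [h2]
  constructor
  · intro h4
    exact IsRational.of_mul (P := fun l => eulerPoly (A l) (meanValue G) i) h3
      (fun l => eulerPoly_monic (hA l) (hN l) (idem_sub he h1) i) h4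
  · intro h4
    exact IsRational.mul (P := fun l => eulerPoly (A l) (meanValue G) i) h4 h3

end many

end Pool.Agent.H849.EF
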