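import Pool.Agent.H849.EF.Defs
import Pool.Graph.R_seed8.Y142.Iso

/-!
# Characteristic polynomials and correspondences
-/

set_option autoImplicit false

open Module Polynomial

universe u v

namespace Pool.Agent.H849.EF

open Pool.Agent.Y142 (charpoly_eq_mul)

section

variable {Ω : Type u} [Field Ω] {V : Type v} [AddCommGroup V] [Module Ω V]

theorem charpolyOn_eq {F : Module.End Ω V} {S : Submodule Ω V} (h : ∀ x ∈ S, F x ∈ S)
    [Module.Finite Ω S] : charpolyOn F S = (F.restrict h).charpoly := by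
  unfold charpolyOn
  rw [dif_pos ⟨h, inferInstance⟩]

theorem charpolyOn_bot (F : Module.End Ω V) : charpolyOn F ⊥ = 1 := by
  rw [charpolyOn_eq (fun x hx => by
    rw [Submodule.mem_bot] at hx
    rw [hx, map_zero]
    exact Submodule.zero_mem _)]
  apply Polynomial.eq_one_of_monic_natDegree_zero (LinearMap.charpoly_monic _)
  rw [LinearMap.charpoly_natDegree, finrank_bot]

/-- Invariance under isomorphisms. -/
theorem charpoly_equiv {K K' : Type*} [AddCommGroup K] [Module Ω K] [FiniteDimensional Ω K]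
    [AddCommGroup K'] [Module Ω K'] [FiniteDimensional Ω K'] {f : Module.End Ω K}
    {f' : Module.End Ω K'} (e : K ≃ₗ[Ω] K') (h : ∀ x, e (f x) = f' (e x)) :
    f.charpoly = f'.charpoly := by
  rw [← LinearEquiv.charpoly_conj e]
  congr 1
  apply LinearMap.ext
  intro y
  rw [LinearEquiv.conj_apply_apply, h, LinearEquiv.apply_symm_apply]

/-- A surjection of modules with operators multiplies characteristic polynomials. -/
theorem charpoly_of_surjective [Infinite Ω] {K K' : Type*} [AddCommGroup K] [Module Ω K]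
    [FiniteDimensional Ω K] [AddCommGroup K'] [Module Ω K'] [FiniteDimensional Ω K']
    {f : Module.End Ω K} {f' : Module.End Ω K'} (π : K →ₗ[Ω] K') (hπ : Function.Surjective π)
    (hc : ∀ x, π (f x) = f' (π x)) :
    f.charpoly = charpolyOn f (LinearMap.ker π) * f'.charpoly := by
  have he : LinearMap.ker π ≤ (LinearMap.ker π).comap f := by
    intro x hx
    rw [Submodule.mem_comap, LinearMap.mem_ker, hc, LinearMap.mem_ker.1 hx, map_zero]
  rw [charpoly_eq_mul he, charpolyOn_eq (S := LinearMap.ker π) (fun x hx => he hx)]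
  congr 1
  apply charpoly_equiv (π.quotKerEquivOfSurjective hπ)
  intro y
  obtain ⟨x, rfl⟩ := (LinearMap.ker π).mkQ_surjective y
  exact hc x

variable {V' : Type v} [AddCommGroup V'] [Module Ω V']

/-- If the correspondence `T` identifies `S / S'` with `R`, the characteristic polynomials multiply. -/
theorem charpolyOn_graph [Infinite Ω] {T : Submodule Ω (V × V')} {S S' : Submodule Ω V}
    {R : Submodule Ω V'} {F : Module.End Ω V} {F' : Module.End Ω V'} [Module.Finite Ω S]
    [Module.Finite Ω R] (hS : ∀ x ∈ S, F x ∈ S) (hR : ∀ x ∈ R, F' x ∈ R) (hle : S' ≤ S)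
    (hl : ∀ v ∈ S, ∃ x ∈ R, (v, x) ∈ T) (hr : ∀ x ∈ R, ∃ v ∈ S, (v, x) ∈ T)
    (hk : ∀ v ∈ S, ∀ x ∈ R, (v, x) ∈ T → (v ∈ S' ↔ x = 0))
    (hc : ∀ v x, (v, x) ∈ T → (F v, F' x) ∈ T) :
    charpolyOn F S = charpolyOn F S' * charpolyOn F' R := by
  have huniq : ∀ v x y, x ∈ R → y ∈ R → (v, x) ∈ T → (v, y) ∈ T → x = y := by
    intro v x y hx hy h1 h2
    have h3 : ((0 : V), x - y) ∈ T := by
      have := T.sub_mem h1 h2
      rwa [Prod.mk_sub_mk, sub_self] at this
    have h4 := (hk 0 S.zero_mem _ (R.sub_mem hx hy) h3).1 S'.zero_mem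
    exact sub_eq_zero.1 h4
  choose! κ hκR hκT using hl
  let π : S →ₗ[Ω] R :=
    { toFun := fun v => ⟨κ v, hκR v v.2⟩
      map_add' := fun v w => by
        apply Subtype.ext
        exact huniq (v + w : V) _ _ (hκR _ (S.add_mem v.2 w.2))
          (R.add_mem (hκR v v.2) (hκR w w.2)) (hκT _ (S.add_mem v.2 w.2))
          (T.add_mem (hκT v v.2) (hκT w w.2))
      map_smul' := fun c v => by
        apply Subtype.ext
        exact huniq (c • v : V) _ _ (hκR _ (S.smul_mem c v.2)) (R.smul_mem c (hκR v v.2))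
          (hκT _ (S.smul_mem c v.2)) (T.smul_mem c (hκT v v.2)) }
  have hπ : Function.Surjective π := by
    rintro ⟨x, hx⟩
    obtain ⟨v, hv, hvx⟩ := hr x hx
    refine ⟨⟨v, hv⟩, Subtype.ext ?_⟩
    exact huniq v _ _ (hκR v hv) hx (hκT v hv) hvx
  have hF : ∀ v, π ((F.restrict hS) v) = (F'.restrict hR) (π v) := by
    intro v
    apply Subtype.ext
    exact huniq (F v) _ _ (hκR _ (hS v v.2)) (hR _ (hκR v v.2)) (hκT _ (hS v v.2))
      (hc _ _ (hκT v v.2))
  have hker : ∀ v : S, v ∈ LinearMap.ker π ↔ (v : V) ∈ S' := by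
    intro v
    rw [LinearMap.mem_ker, hk v v.2 _ (hκR v v.2) (hκT v v.2)]
    exact ⟨fun h => congrArg Subtype.val h, fun h => Subtype.ext h⟩
  have hS' : ∀ x ∈ S', F x ∈ S' := by
    intro x hx
    have h1 := (hker ⟨x, hle hx⟩).2 hx
    have h2 : (F.restrict hS) ⟨x, hle hx⟩ ∈ LinearMap.ker π := by
      rw [LinearMap.mem_ker, hF, LinearMap.mem_ker.1 h1, map_zero]
    exact (hker _).1 h2
  have : Module.Finite Ω S' :=
    Module.Finite.of_injective (Submodule.inclusion hle) (Submodule.inclusion_injective hle)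
  rw [charpolyOn_eq hS, charpolyOn_eq hR, charpoly_of_surjective π hπ hF, charpolyOn_eq hS',
    charpolyOn_eq (fun x hx => by rw [LinearMap.mem_ker, hF, LinearMap.mem_ker.1 hx, map_zero])]
  congr 1
  let e : LinearMap.ker π ≃ₗ[Ω] S' :=
    { toFun := fun v => ⟨v.1, (hker _).1 v.2⟩
      map_add' := fun _ _ => rfl
      map_smul' := fun _ _ => rfl
      invFun := fun v => ⟨⟨v, hle v.2⟩, (hker _).2 v.2⟩
      left_inv := fun _ => rfl
      right_inv := fun _ => rfl }
  exact charpoly_equiv e fun _ => rfl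

end

end Pool.Agent.H849.EF
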