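import Pool.Agent.H849.EF.Fac

/-!
# Rationality and independence of the Euler polynomials
-/

set_option autoImplicit false

open Module

universe u v

namespace Pool.Agent.H849.EF

open Pool.Agent.Y143 Pool.Agent.H849.CC Polynomial

section alg

variable {G : Type} [Group G] [Fintype G] {e : G → ℚ}

theorem idem_meanValue : IsIdempotent (meanValue G) := by
  intro g
  have hc : (Fintype.card G : ℚ) ≠ 0 := Nat.cast_ne_zero.2 Fintype.card_ne_zero
  simp only [meanValue, Finset.sum_const, Finset.card_univ, nsmul_eq_mul]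
  field_simp

theorem sum_meanValue : ∑ g : G, meanValue G g = 1 := by
  have hc : (Fintype.card G : ℚ) ≠ 0 := Nat.cast_ne_zero.2 Fintype.card_ne_zero
  simp only [meanValue, Finset.sum_const, Finset.card_univ, nsmul_eq_mul]
  field_simp

/-- The augmentation of an idempotent is `0` or `1`. -/
theorem sum_idem (he : IsIdempotent e) : (∑ g, e g) * (∑ g, e g) = ∑ g, e g := by
  conv_rhs => rw [← Finset.sum_congr rfl fun g _ => he g]
  rw [Finset.sum_comm, Finset.sum_mul]
  refine Finset.sum_congr rfl fun h _ => ?_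
  rw [← Finset.mul_sum]
  congr 1
  exact (Fintype.sum_equiv (Equiv.mulLeft h⁻¹) _ _ fun g => rfl).symm

theorem idem_sub (he : IsIdempotent e) (h1 : ∑ g, e g = 1) :
    IsIdempotent (fun g => e g - meanValue G g) := by
  intro g
  have e1 : ∀ h : G, (e h - meanValue G h) * (e (h⁻¹ * g) - meanValue G (h⁻¹ * g)) =
      e h * e (h⁻¹ * g) - (Fintype.card G : ℚ)⁻¹ * e h - (Fintype.card G : ℚ)⁻¹ * e (h⁻¹ * g) +
        meanValue G h * meanValue G (h⁻¹ * g) := by
    intro h
    simp only [meanValue]
    ring
  have e2 : ∑ h : G, e (h⁻¹ * g) = 1 := by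
    rw [← h1]
    refine Fintype.sum_equiv ((Equiv.inv G).trans (Equiv.mulRight g)) _ _ fun h => rfl
  simp_rw [e1]
  rw [Finset.sum_add_distrib, Finset.sum_sub_distrib, Finset.sum_sub_distrib, ← Finset.mul_sum,
    ← Finset.mul_sum, e2, h1, he g, idem_meanValue g]
  simp only [meanValue]
  ring

theorem sum_sub (h1 : ∑ g, e g = 1) : ∑ g, (e g - meanValue G g) = 0 := by
  rw [Finset.sum_sub_distrib, h1, sum_meanValue, sub_self]

variable {Ω : Type u} [Field Ω] [CharZero Ω] {V : Type v} [AddCommGroup V] [Module Ω V]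

theorem groupElement_sub (ρ : G →* Module.End Ω V) (v : V) :
    groupElement (fun g => e g - meanValue G g) ρ v =
      groupElement e ρ v - groupElement (meanValue G) ρ v := by
  rw [groupElement_apply, groupElement_apply, groupElement_apply, ← Finset.sum_sub_distrib]
  refine Finset.sum_congr rfl fun g _ => ?_
  rw [Rat.cast_sub, sub_smul]

theorem mean_fixed (ρ : G →* Module.End Ω V) (v : V) (g : G) :
    ρ g (groupElement (meanValue G) ρ v) = groupElement (meanValue G) ρ v := by
  have h1 : groupElement (meanValue G) ρ v = avg ρ v := by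
    rw [groupElement_apply, avg_apply, Finset.smul_sum]
    refine Finset.sum_congr rfl fun g _ => ?_
    simp [meanValue]
  rw [h1]
  exact avg_fixed ρ v g

theorem groupElement_mean (h1 : ∑ g, e g = 1) (ρ : G →* Module.End Ω V) (v : V) :
    groupElement e ρ (groupElement (meanValue G) ρ v) = groupElement (meanValue G) ρ v := by
  rw [groupElement_apply]
  simp_rw [mean_fixed]
  rw [← Finset.sum_smul, ← Rat.cast_sum, h1, Rat.cast_one, one_smul]

theorem mean_groupElement (h1 : ∑ g, e g = 1) (ρ : G →* Module.End Ω V) (v : V) :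
    groupElement (meanValue G) ρ (groupElement e ρ v) = groupElement (meanValue G) ρ v := by
  have h2 : ∀ v, groupElement (meanValue G) ρ v = avg ρ v := by
    intro v
    rw [groupElement_apply, avg_apply, Finset.smul_sum]
    refine Finset.sum_congr rfl fun g _ => ?_
    simp [meanValue]
  have h3 : ∀ (g : G) (v : V), avg ρ (ρ g v) = avg ρ v := by
    intro g v
    rw [avg_apply, avg_apply, sum_left]
  rw [h2, h2, groupElement_apply, map_sum]
  simp_rw [map_smul, h3]
  rw [← Finset.sum_smul, ← Rat.cast_sum, h1, Rat.cast_one, one_smul]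

end alg

section one

variable {Ω : Type u} [Field Ω] [CharZero Ω] {Γ : Type} {n q : ℕ}
  {X : SemistableModel.{u, v} Ω Γ n q} {G : Type} [Group G] [Fintype G]
  {A : GroupAction X.generic G} {e : G → ℚ}

theorem eulerPoly_outside (hA : A.IsAction) (h : A.TrivialBelowMiddle n) (h0 : ∑ g, e g = 0)
    (he : IsIdempotent e) {i : ℕ} (hi : i ≠ n) : eulerPoly A e i = 1 := by
  show charpolyOn (X.actV i X.frob) (image e (A.onV i) ⊓ LinearMap.ker (X.N i)) = 1
  rw [image_eq_bot hA h h0 he hi, bot_inf_eq, charpolyOn_bot]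

/-- The contribution of the quotient. -/
theorem eulerPoly_split (hA : A.IsAction) (hN : IsFrobeniusCompatible A q) (h1 : ∑ g, e g = 1)
    (he : IsIdempotent e) (i : ℕ) :
    eulerPoly A e i = eulerPoly A (meanValue G) i * eulerPoly A (fun g => e g - meanValue G g) i := by
  have hfin := Pool.Agent.R942.WB.finite_V X i
  have hinf : Infinite Ω := inferInstance
  have he' := idem_sub he h1
  have hF : ∀ (g : G) (v : X.V i), X.actV i X.frob (A.onV i g v) = A.onV i g (X.actV i X.frob v) :=
    fun g v => hA.frob g i v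
  have hM : ∀ (g : G) (v : X.V i), X.N i (A.onV i g v) = A.onV i g (X.N i v) :=
    fun g v => hA.monodromy g i v
  have hstab : ∀ e' : G → ℚ, IsIdempotent e' → ∀ v ∈ image e' (A.onV i) ⊓ LinearMap.ker (X.N i),
      X.actV i X.frob v ∈ image e' (A.onV i) ⊓ LinearMap.ker (X.N i) := by
    rintro e' he' v ⟨hv, hv0⟩
    refine ⟨?_, ?_⟩
    · rw [SetLike.mem_coe, mem_image_iff he'] at hv ⊢
      rw [← groupElement_comm hF, hv]
    · rw [SetLike.mem_coe, LinearMap.mem_ker] at hv0 ⊢
      have h2 : X.N i (X.actV i X.frob v) = (q : Ω) • X.actV i X.frob (X.N i v) := hN.2 i v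
      rw [h2, hv0, map_zero, smul_zero]
  set E' := groupElement (fun g => e g - meanValue G g) (A.onV i) with hE'
  refine charpolyOn_graph (T := LinearMap.graph E')
    (hstab e he) (hstab _ he') ?_ ?_ ?_ ?_ ?_
  · rintro v ⟨hv, hv0⟩
    refine ⟨?_, hv0⟩
    rw [SetLike.mem_coe, mem_image_iff idem_meanValue] at hv
    rw [SetLike.mem_coe, mem_image_iff he, ← hv, groupElement_mean h1]
  · rintro v ⟨hv, hv0⟩
    refine ⟨E' v, ⟨⟨v, rfl⟩, ?_⟩, rfl⟩
    rw [SetLike.mem_coe, LinearMap.mem_ker] at hv0 ⊢
    have h2 : X.N i (E' v) = E' (X.N i v) := groupElement_comm hM v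
    have h3 : X.N i v = 0 := hv0
    rw [h3, map_zero] at h2
    exact h2
  · rintro x ⟨hx, hx0⟩
    have hx1 := (mem_image_iff he').1 hx
    refine ⟨x, ⟨?_, hx0⟩, hx1.symm⟩
    have h2 : groupElement (meanValue G) (A.onV i) x = 0 := by
      rw [← hx1]
      have h3 : ∀ v, groupElement (meanValue G) (A.onV i) (E' v) = 0 := by
        intro v
        rw [hE', groupElement_sub, map_sub, mean_groupElement h1,
          groupElement_idem idem_meanValue, sub_self]
      exact h3 x
    rw [groupElement_sub, h2, sub_zero] at hx1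
    rw [SetLike.mem_coe, mem_image_iff he]
    exact hx1
  · rintro v ⟨hv, hv0⟩ x ⟨hx, -⟩ hvx
    have hvx' : x = E' v := hvx
    rw [SetLike.mem_coe, mem_image_iff he] at hv
    rw [hvx', hE', groupElement_sub, hv, sub_eq_zero]
    constructor
    · rintro ⟨h2, -⟩
      exact ((mem_image_iff idem_meanValue).1 h2).symm
    · intro h2
      exact ⟨(mem_image_iff idem_meanValue).2 h2.symm, hv0⟩
  · intro v x hvx
    have hvx' : x = E' v := hvx
    show X.actV i X.frob x = E' (X.actV i X.frob v)
    rw [hvx', hE', groupElement_comm hF]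

theorem charpolyOn_monic {V : Type v} [AddCommGroup V] [Module Ω V] {F : Module.End Ω V}
    {S : Submodule Ω V} (hS : ∀ x ∈ S, F x ∈ S) [Module.Finite Ω S] : (charpolyOn F S).Monic := by
  rw [charpolyOn_eq hS]
  exact LinearMap.charpoly_monic _

end one

section many

variable {Λ : Type} {K : Λ → Type u} [∀ l, Field (K l)] [∀ l, CharZero (K l)]

theorem IsRational.one : IsRational (fun l => (1 : Polynomial (K l))) :=
  ⟨1, fun l => by rw [Polynomial.map_one]⟩

theorem IsRational.mul {P P' : ∀ l, Polynomial (K l)} (h : IsRational P) (h' : IsRational P') :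
    IsRational (fun l => P l * P' l) := by
  obtain ⟨R, hR⟩ := h
  obtain ⟨R', hR'⟩ := h'
  exact ⟨R * R', fun l => by rw [Polynomial.map_mul, ← hR, ← hR']⟩

theorem IsRational.prod {s : Finset ℕ} {P : ℕ → ∀ l, Polynomial (K l)}
    (h : ∀ a ∈ s, IsRational (P a)) : IsRational (fun l => ∏ a ∈ s, P a l) := by
  classical
  induction s using Finset.induction_on with
  | empty =>
    simp only [Finset.prod_empty]
    exact IsRational.one
  | insert a s ha ih =>
    simp only [Finset.prod_insert ha]
    exact (h a (Finset.mem_insert_self _ _)).mul (ih fun b hb => h b (Finset.mem_insert_of_mem hb))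

theorem IsRational.of_mul {P P' : ∀ l, Polynomial (K l)} (h' : IsRational P')
    (hm : ∀ l, (P' l).Monic) (h : IsRational (fun l => P l * P' l)) : IsRational P := by
  obtain ⟨R, hR⟩ := h
  obtain ⟨R', hR'⟩ := h'
  by_cases hΛ : Nonempty Λ
  · obtain ⟨l₀⟩ := hΛ
    have hmon : R'.Monic := by
      have := hm l₀
      rw [hR'] at this
      exact Polynomial.monic_of_injective (algebraMap ℚ (K l₀)).injective this
    refine ⟨R /ₘ R', fun l => ?_⟩
    rw [Polynomial.map_divByMonic _ hmon, ← hR l, ← hR' l]
    show P l = (P l * P' l) /ₘ P' l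
    rw [mul_comm, Polynomial.mul_divByMonic_cancel_left _ (hm l)]
  · exact ⟨0, fun l => absurd ⟨l⟩ hΛ⟩

end many

end Pool.Agent.H849.EF
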