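import Pool.Agent.H849.EF.Lin
import Pool.Agent.H849.CC.Core
import Pool.Graph.R_pool_sql_team_seeded_620a6dc7.Helper812_WR.Filt

/-!
# The part cut out by an idempotent of the group algebra
-/

set_option autoImplicit false

open Module

universe u v

namespace Pool.Agent.H849.EF

open Pool.Agent.Y143 Pool.Agent.H849.CC

section rep

variable {Ω : Type u} [Field Ω] [CharZero Ω] {V : Type v} [AddCommGroup V] [Module Ω V] {G : Type}
  [Group G] [Fintype G] {e : G → ℚ}

theorem groupElement_apply (ρ : G →* Module.End Ω V) (v : V) :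
    groupElement e ρ v = ∑ g, (e g : Ω) • ρ g v := by
  unfold groupElement
  rw [LinearMap.sum_apply]
  rfl

theorem groupElement_idem (he : IsIdempotent e) (ρ : G →* Module.End Ω V) (v : V) :
    groupElement e ρ (groupElement e ρ v) = groupElement e ρ v := by
  rw [groupElement_apply, groupElement_apply]
  have h1 : ∀ h : G, (e h : Ω) • ρ h (∑ g, (e g : Ω) • ρ g v) =
      ∑ g, ((e h * e (h⁻¹ * g) : ℚ) : Ω) • ρ g v := by
    intro h
    rw [map_sum, Finset.smul_sum]
    refine Fintype.sum_equiv (Equiv.mulLeft h) _ _ fun g => ?_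
    rw [Equiv.coe_mulLeft, inv_mul_cancel_left, map_smul, smul_smul, ← Rat.cast_mul,
      ← Module.End.mul_apply, ← map_mul]
  simp_rw [h1]
  rw [Finset.sum_comm]
  refine Finset.sum_congr rfl fun g _ => ?_
  rw [← Finset.sum_smul, ← Rat.cast_sum, he g]

theorem mem_image_iff (he : IsIdempotent e) {ρ : G →* Module.End Ω V} {v : V} :
    v ∈ image e ρ ↔ groupElement e ρ v = v := by
  constructor
  · rintro ⟨w, rfl⟩
    exact groupElement_idem he ρ w
  · intro h
    exact ⟨v, h⟩

theorem groupElement_comm {ρ : G →* Module.End Ω V} {f : Module.End Ω V}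
    (h : ∀ g v, f (ρ g v) = ρ g (f v)) (v : V) :
    f (groupElement e ρ v) = groupElement e ρ (f v) := by
  rw [groupElement_apply, groupElement_apply, map_sum]
  simp_rw [map_smul, h]

/-- The elements of augmentation zero kill the invariants. -/
theorem groupElement_of_fixed (h0 : ∑ g, e g = 0) {ρ : G →* Module.End Ω V} {v : V}
    (h : ∀ g, ρ g v = v) : groupElement e ρ v = 0 := by
  rw [groupElement_apply]
  simp_rw [h]
  rw [← Finset.sum_smul, ← Rat.cast_sum, h0, Rat.cast_zero, zero_smul]

end rep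

variable {Ω : Type u} [Field Ω] [CharZero Ω] {Γ : Type} {n q : ℕ}
  {X : SemistableModel.{u, v} Ω Γ n q} {G : Type} [Group G] [Fintype G]
  {A : GroupAction X.generic G} {e : G → ℚ}

section
variable (hA : A.IsAction)
include hA

theorem E_gr {a : ℕ} {m : ℤ} {x : X.H a} (hx : x ∈ X.gr a m) :
    groupElement e (A.onH a) x ∈ X.gr a m := by
  rw [groupElement_apply]
  exact Submodule.sum_mem _ fun g _ => Submodule.smul_mem _ _ (hA.gr g a m x hx)

theorem E_mem {r w : ℤ} {x : X.C} (hx : x ∈ X.E₁ r w) : groupElement e A.onC x ∈ X.E₁ r w := by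
  rw [groupElement_apply]
  exact Submodule.sum_mem _ fun g _ => Submodule.smul_mem _ _ (GroupAction.onC_mem hA g hx)

theorem sp_E {i : ℕ} {w : ℤ} {v : X.V i} {x : X.C} (h : (v, x) ∈ X.sp i w) :
    (groupElement e (A.onV i) v, groupElement e A.onC x) ∈ X.sp i w := by
  rw [groupElement_apply, groupElement_apply]
  have h1 : ∑ g, (e g : Ω) • ((A.onV i g v, A.onC g x) : X.V i × X.C) ∈ X.sp i w :=
    Submodule.sum_mem _ fun g _ => Submodule.smul_mem _ _ (hA.sp g i w v x h)
  have h2 : ∑ g, (e g : Ω) • ((A.onV i g v, A.onC g x) : X.V i × X.C) =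
      (∑ g, (e g : Ω) • A.onV i g v, ∑ g, (e g : Ω) • A.onC g x) := by
    apply Prod.ext
    · rw [Prod.fst_sum]
      rfl
    · rw [Prod.snd_sum]
      rfl
  rwa [h2] at h1

theorem E_diff (r : ℤ) (x : X.C) :
    X.diff r (groupElement e A.onC x) = groupElement e A.onC (X.diff r x) :=
  groupElement_comm (fun g v => GroupAction.diff_onC hA r g v) x

variable (h : A.TrivialBelowMiddle n) (h0 : ∑ g, e g = 0)
include h h0

theorem E_outside {r w : ℤ} (hrw : r + w ≠ n) {x : X.C} (hx : x ∈ X.E₁ r w) :
    groupElement e A.onC x = 0 :=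
  groupElement_of_fixed h0 fun g => GroupAction.trivial_E₁ hA h hrw g hx

variable (he : IsIdempotent e)
include he

/-- The realisation is zero in the degrees different from `n`. -/
theorem image_eq_bot {i : ℕ} (hi : i ≠ n) : image e (A.onV i) = ⊥ := by
  rw [eq_bot_iff]
  intro v hv
  rw [mem_image_iff he] at hv
  rw [Submodule.mem_bot, ← hv]
  exact groupElement_of_fixed h0 fun g => GroupAction.trivial_V hA h hi g v

/-- Vectors of the realisation have representatives of the same kind. -/
theorem exists_rep {i : ℕ} {w : ℤ} {v : X.V i} (hv : v ∈ image e (A.onV i)) (hw : v ∈ X.W i w) :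
    ∃ x, (v, x) ∈ X.sp i w ∧ groupElement e A.onC x = x := by
  obtain ⟨x, hx⟩ := X.sp_left i w v hw
  refine ⟨groupElement e A.onC x, ?_, groupElement_idem he _ _⟩
  have h1 := sp_E hA (e := e) hx
  rwa [(mem_image_iff he).1 hv] at h1

/-- An element of the part cut out by `e` which is a coboundary is zero. -/
theorem bd_zero {r w : ℤ} (hrw : r + w = n) {x : X.C} (hx : x ∈ X.coboundaries r w)
    (hE : groupElement e A.onC x = x) : x = 0 := by
  obtain ⟨y, hy, rfl⟩ := hx
  rw [← hE, ← E_diff hA, E_outside hA h h0 (by omega) hy, map_zero]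

/-- Every element of the part cut out by `e` is a cocycle. -/
theorem diff_zero {r w : ℤ} (hrw : r + w = n) {x : X.C} (hx : x ∈ X.E₁ r w)
    (hE : groupElement e A.onC x = x) : X.diff r x = 0 := by
  rw [← hE, E_diff hA]
  exact E_outside hA h h0 (by omega) (X.diff_mem hx)

/-- Every element of the part cut out by `e` comes from the realisation. -/
theorem exists_vec {w : ℤ} {x : X.C} (hx : x ∈ X.E₁ (n - w) w)
    (hE : groupElement e A.onC x = x) : ∃ v ∈ image e (A.onV n), (v, x) ∈ X.sp n w := by
  obtain ⟨v, hv⟩ := X.sp_right n w x ⟨hx, diff_zero hA h h0 he (by ring) hx hE⟩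
  refine ⟨groupElement e (A.onV n) v, ⟨v, rfl⟩, ?_⟩
  have h1 := sp_E hA (e := e) hv
  rwa [hE] at h1

/-- `N` is surjective onto the part of weights at most `n - 1`. -/
theorem N_surj {w : ℤ} (hw : w ≤ n - 1) {y : X.V n} (hy : y ∈ X.W n w)
    (hyE : y ∈ image e (A.onV n)) :
    ∃ u ∈ image e (A.onV n), u ∈ X.W n (w + 2) ∧ X.N n u = y := by
  obtain ⟨b, hb⟩ := X.W_bot n
  have hNE : ∀ v : X.V n, X.N n (groupElement e (A.onV n) v) = groupElement e (A.onV n) (X.N n v) :=
    groupElement_comm fun g v => hA.monodromy g n v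
  have key : ∀ (k : ℕ) (w : ℤ), w ≤ n - 1 → w - b ≤ k → ∀ y, y ∈ X.W n w → y ∈ image e (A.onV n) →
      ∃ u ∈ image e (A.onV n), u ∈ X.W n (w + 2) ∧ X.N n u = y := by
    intro k
    induction k with
    | zero =>
      intro w _ hwb y hy _
      have h1 := X.W_mono n (show w ≤ b by omega) hy
      rw [hb, Submodule.mem_bot] at h1
      exact ⟨0, Submodule.zero_mem _, Submodule.zero_mem _, by rw [map_zero, h1]⟩
    | succ k ih =>
      intro w hw hwb y hy hyE
      obtain ⟨x, hx, hxE⟩ := exists_rep hA h h0 he hyE hy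
      have h1 := (X.sp_mem n _ _ _ hx).2.1
      have h2 : x ∈ X.E₁ (n - (w + 2)) (w + 2) := by
        intro a
        refine ⟨?_, fun hc => (h1 a).2 fun hc' => hc ?_⟩
        · have := (h1 a).1
          rwa [show w + ((n : ℤ) - w) - a = w + 2 + ((n : ℤ) - (w + 2)) - a by ring] at this
        · obtain ⟨h3, h4⟩ := hc'
          refine ⟨?_, ?_⟩
          · rw [abs_of_nonneg (by omega : (0 : ℤ) ≤ n - w)] at h3
            rw [abs_le]
            constructor <;> omega
          · omega
      obtain ⟨u, huE, hu⟩ := exists_vec hA h h0 he h2 hxE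
      have h3 := X.sp_N n _ _ _ hu
      have h4 : X.cut ((n : ℤ) - (w + 2) + 2) x = x := by
        funext a
        by_cases hc : InColumn ((n : ℤ) - (w + 2) + 2) a
        · rw [X.cut_of hc]
        · rw [X.cut_of_not hc, (h1 a).2 (by
            rwa [show (n : ℤ) - (w + 2) + 2 = n - w by ring] at hc)]
      rw [h4] at h3
      have h5 : (y - X.N n u, (0 : X.C)) ∈ X.sp n w := by
        have := Submodule.sub_mem _ hx (X.sp_cast (show w + 2 - 2 = w by ring) h3)
        rwa [Prod.mk_sub_mk, sub_self] at this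
      have h6 := (X.sp_ker n _ _ _ h5).2 (Submodule.zero_mem _)
      have h7 : y - X.N n u ∈ image e (A.onV n) := by
        refine Submodule.sub_mem _ hyE ?_
        rw [mem_image_iff he] at huE ⊢
        rw [← hNE, huE]
      obtain ⟨u', hu'E, hu', hN⟩ := ih (w - 1) (by omega) (by omega) _ h6 h7
      refine ⟨u + u', Submodule.add_mem _ huE hu'E, Submodule.add_mem _ (X.sp_mem n _ _ _ hu).1
        (X.W_mono n (by omega) hu'), ?_⟩
      rw [map_add, hN]
      abel
  exact key (w - b).toNat w hw (Int.self_le_toNat _) y hy hyE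

end

end Pool.Agent.H849.EF
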